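import Pool.Agent.W650.HL.AllB

set_option autoImplicit false

/-!
Let `H` be a complete `r`-partite graph, `r ≥ 3`, whose parts do not all have the same size (the
parts are the fibres of `p`). Then there are constants `c > 0` and `κ > 1`, depending only on `H`,
with `c κ^ℓ hom(P_n, H) ≤ hom(T, H)` for every tree `T` with `n` vertices and `ℓ` leaves.
-/

namespace Pool.Agent.Results.MP_66e4ee_co.GrowthInLeaves

theorem result :
    ∀ r : ℕ, 3 ≤ r → ∀ (W : Type) [Fintype W] (p : W → Fin r), Function.Surjective p →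
      (∃ i j : Fin r, Nat.card {w : W // p w = i} ≠ Nat.card {w : W // p w = j}) →
      ∃ c : ℝ, 0 < c ∧ ∃ κ : ℝ, 1 < κ ∧
      ∀ (n : ℕ) (T : SimpleGraph (Fin n)), T.IsTree →
        c * κ ^ ({v : Fin n | (T.neighborSet v).ncard = 1}.ncard) *
          (Nat.card {f : Fin n → W //
            ∀ a b : Fin n, (SimpleGraph.pathGraph n).Adj a b → p (f a) ≠ p (f b)} : ℝ)
          ≤ (Nat.card {f : Fin n → W // ∀ a b : Fin n, T.Adj a b → p (f a) ≠ p (f b)} : ℝ) :=
  Pool.W650.HL.thmB

end Pool.Agent.Results.MP_66e4ee_co.GrowthInLeaves
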