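import Pool.Agent.W650.HL.AllC

set_option autoImplicit false

/-!
Let `H` be any complete `r`-partite graph, `r ≥ 3` (the parts are the fibres of `p`), and let `T`
be a tree with `n` vertices in which all vertices of degree at least three lie in one class `A` of
the bipartition of `T`. Then `hom(P_n, H) ≤ hom(T, H)`.
-/

namespace Pool.Agent.Results.MP_66e4ee_co.OneClass

theorem result :
    ∀ r : ℕ, 3 ≤ r → ∀ (W : Type) [Fintype W] (p : W → Fin r), Function.Surjective p →
      ∀ (n : ℕ) (T : SimpleGraph (Fin n)), T.IsTree →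
        (∃ A : Set (Fin n), (∀ u v, T.Adj u v → (u ∈ A ↔ v ∉ A)) ∧
          ∀ v, v ∉ A → (T.neighborSet v).ncard ≤ 2) →
        Nat.card {f : Fin n → W //
            ∀ a b : Fin n, (SimpleGraph.pathGraph n).Adj a b → p (f a) ≠ p (f b)}
          ≤ Nat.card {f : Fin n → W // ∀ a b : Fin n, T.Adj a b → p (f a) ≠ p (f b)} :=
  Pool.W650.HL.thmC

end Pool.Agent.Results.MP_66e4ee_co.OneClass
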